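import Mathlib
import Pool.Agent.Helper92.GG.Stmts

set_option autoImplicit false

namespace Pool.Agent.Helper92.GG

open MvPolynomial
open Pool.Agent.Helper49.Girth (cl ty)

universe u

section red

variable {K L : Type u} [Field K] [Field L] [Algebra K L] (w : KVal K L)

/-- the residue map -/
noncomputable def PLB_res : w.V →+* w.κ := IsLocalRing.residue w.V

theorem PLB_res_surjective : Function.Surjective (PLB_res w) :=
  IsLocalRing.residue_surjective

theorem PLB_res_eq_zero_iff (b : w.V) : PLB_res w b = 0 ↔ w.V.valuation (b : L) < 1 := by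
  have h1 : PLB_res w b = 0 ↔ b ∈ IsLocalRing.maximalIdeal w.V :=
    IsLocalRing.residue_eq_zero_iff b
  rw [h1]
  exact w.V.valuation_lt_one_iff b

theorem PLB_red_mk {a : L} (h : a ∈ w.V) : w.red a = PLB_res w ⟨a, h⟩ :=
  dif_pos h

theorem PLB_red_of_notMem {a : L} (h : a ∉ w.V) : w.red a = 0 := dif_neg h

theorem PLB_mem_of_red_ne {a : L} (h : w.red a ≠ 0) : a ∈ w.V := by
  by_contra h1
  exact h (PLB_red_of_notMem w h1)

theorem PLB_red_zero : w.red 0 = 0 := by
  rw [PLB_red_mk w w.V.zero_mem]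
  exact map_zero _

theorem PLB_red_one : w.red 1 = 1 := by
  rw [PLB_red_mk w w.V.one_mem]
  exact map_one (PLB_res w)

theorem PLB_red_add {a b : L} (ha : a ∈ w.V) (hb : b ∈ w.V) :
    w.red (a + b) = w.red a + w.red b := by
  rw [PLB_red_mk w ha, PLB_red_mk w hb, PLB_red_mk w (w.V.add_mem _ _ ha hb)]
  exact map_add (PLB_res w) ⟨a, ha⟩ ⟨b, hb⟩

theorem PLB_red_mul {a b : L} (ha : a ∈ w.V) (hb : b ∈ w.V) :
    w.red (a * b) = w.red a * w.red b := by
  rw [PLB_red_mk w ha, PLB_red_mk w hb, PLB_red_mk w (w.V.mul_mem _ _ ha hb)]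
  exact map_mul (PLB_res w) ⟨a, ha⟩ ⟨b, hb⟩

theorem PLB_red_algebraMap (c : K) : w.red (algebraMap K L c) = algebraMap K w.κ c := by
  rw [PLB_red_mk w (w.hK c)]
  rfl

theorem PLB_red_eq_zero_iff {a : L} (ha : a ∈ w.V) : w.red a = 0 ↔ w.V.valuation a < 1 := by
  rw [PLB_red_mk w ha]
  exact PLB_res_eq_zero_iff w ⟨a, ha⟩

theorem PLB_red_ne_zero_iff {a : L} : w.red a ≠ 0 ↔ w.V.valuation a = 1 := by
  constructor
  · intro h
    have ha := PLB_mem_of_red_ne w h
    rw [Ne, PLB_red_eq_zero_iff w ha] at h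
    exact le_antisymm ((w.V.valuation_le_one_iff a).mpr ha) (not_lt.mp h)
  · intro h
    have ha : a ∈ w.V := (w.V.valuation_le_one_iff a).mp h.le
    rw [Ne, PLB_red_eq_zero_iff w ha, h]
    exact lt_irrefl _

/-- the residue of a polynomial expression -/
theorem PLB_red_aeval {ι : Type*} (x : ι → L) (hx : ∀ i, x i ∈ w.V) (f : MvPolynomial ι K) :
    aeval x f ∈ w.V ∧ w.red (aeval x f) = aeval (fun i => w.red (x i)) f := by
  induction f using MvPolynomial.induction_on with
  | C c =>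
    rw [aeval_C, aeval_C]
    exact ⟨w.hK c, PLB_red_algebraMap w c⟩
  | add p q hp hq =>
    rw [map_add, map_add]
    exact ⟨w.V.add_mem _ _ hp.1 hq.1, by rw [PLB_red_add w hp.1 hq.1, hp.2, hq.2]⟩
  | mul_X p i hp =>
    rw [map_mul, map_mul, aeval_X, aeval_X]
    exact ⟨w.V.mul_mem _ _ hp.1 (hx i), by rw [PLB_red_mul w hp.1 (hx i), hp.2]⟩

/-- an intermediate field inside the valuation ring is trivially valued -/
theorem PLB_triv_of_subset (F : IntermediateField K L) (hF : ∀ a ∈ F, a ∈ w.V) :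
    w.Triv (F : Set L) := by
  intro a ha
  refine ⟨hF a ha, fun h0 h1 => ?_⟩
  have h2 : a⁻¹ ∈ F := inv_mem ha
  have h3 := PLB_red_mul w (hF a ha) (hF _ h2)
  rw [mul_inv_cancel₀ h0, PLB_red_one, h1, zero_mul] at h3
  exact one_ne_zero h3

/-- if a subfield is contained in the valuation ring, so is the relative algebraic closure -/
theorem PLB_cl_subset (s : Set L) (hF : ∀ a ∈ IntermediateField.adjoin K s, a ∈ w.V) :
    ∀ a ∈ cl K s, a ∈ w.V := by
  intro a ha
  have h1 : IsAlgebraic (IntermediateField.adjoin K s) a := Pool.Agent.Helper49.Girth.mem_cl.mp ha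
  have h2 : IsIntegral (IntermediateField.adjoin K s) a := h1.isIntegral
  obtain ⟨p, hp, hpa⟩ := h2
  let j : IntermediateField.adjoin K s →+* w.V :=
    { toFun := fun c => ⟨c, hF c c.2⟩
      map_one' := rfl
      map_mul' := fun _ _ => rfl
      map_zero' := rfl
      map_add' := fun _ _ => rfl }
  have h3 : IsIntegral w.V a := by
    refine ⟨p.map j, hp.map j, ?_⟩
    rw [Polynomial.eval₂_map]
    exact hpa
  obtain ⟨b, hb⟩ := (IsIntegrallyClosed.isIntegral_iff (R := w.V) (K := L)).mp h3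
  rw [← hb]
  exact b.2

end red

section rank

variable {K L : Type u} [Field K] [Field L] [Algebra K L]

theorem PLB_coe_rk {s : Set L} (hs : s.Finite) :
    ((rk K s : ℕ) : ℕ∞) = (AlgebraicIndependent.matroid K L).eRk s :=
  ENat.coe_toNat ((Matroid.eRk_le_encard _ s).trans_lt hs.encard_lt_top).ne

theorem PLB_rk_eq_of_cl_eq {s t : Set L} (h : cl K s = cl K t) : rk K s = rk K t := by
  unfold rk
  rw [← Matroid.eRk_closure_eq _ s, ← Matroid.eRk_closure_eq _ t,
    ← Pool.Agent.Helper49.Girth.coe_cl, ← Pool.Agent.Helper49.Girth.coe_cl, h]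

theorem PLB_rk_le {s t : Set L} (hs : s.Finite) (h : t ⊆ (cl K s : Set L)) : rk K t ≤ rk K s := by
  refine ENat.toNat_le_toNat ?_ ((Matroid.eRk_le_encard _ s).trans_lt hs.encard_lt_top).ne
  rw [← Matroid.eRk_closure_eq _ s]
  rw [Pool.Agent.Helper49.Girth.coe_cl] at h
  exact (AlgebraicIndependent.matroid K L).eRk_mono h

theorem PLB_exists_basis {s : Set L} (hs : s.Finite) :
    ∃ B ⊆ s, AlgebraicIndepOn K id B ∧ B.ncard = rk K s ∧ cl K B = cl K s := by
  obtain ⟨B, hB⟩ := (AlgebraicIndependent.matroid K L).exists_isBasis s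
    (by rw [AlgebraicIndependent.matroid_e]; exact Set.subset_univ _)
  refine ⟨B, hB.subset, hB.indep, ?_, ?_⟩
  · unfold rk
    rw [← hB.encard_eq_eRk]
    rfl
  · apply SetLike.coe_injective
    rw [Pool.Agent.Helper49.Girth.coe_cl, Pool.Agent.Helper49.Girth.coe_cl,
      hB.closure_eq_closure]

theorem PLB_rk_indep {B : Set L} (hB : AlgebraicIndepOn K id B) : rk K B = B.ncard := by
  unfold rk
  rw [Matroid.Indep.eRk_eq_encard (M := AlgebraicIndependent.matroid K L) hB]
  rfl

theorem PLB_cl_eq {s t : Set L} (hs : s.Finite) (ht : t.Finite) (h : t ⊆ (cl K s : Set L))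
    (hr : rk K s ≤ rk K t) : cl K t = cl K s := by
  apply SetLike.coe_injective
  rw [Pool.Agent.Helper49.Girth.coe_cl, Pool.Agent.Helper49.Girth.coe_cl]
  rw [Pool.Agent.Helper49.Girth.coe_cl] at h
  rw [(AlgebraicIndependent.matroid K L).closure_closure s |>.symm]
  refine Matroid.IsRkFinite.closure_eq_closure_of_subset_of_eRk_ge_eRk ?_ h ?_
  · rw [← Matroid.eRk_lt_top_iff]
    exact (Matroid.eRk_le_encard _ t).trans_lt ht.encard_lt_top
  · rw [Matroid.eRk_closure_eq, ← PLB_coe_rk hs, ← PLB_coe_rk ht]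
    exact_mod_cast hr

end rank

section red2

variable {K L : Type u} [Field K] [Field L] [Algebra K L] (w : KVal K L)

/-- independent residues -/
theorem PLB_indep_of_red {ι : Type u} (b : ι → L) (hb : ∀ i, b i ∈ w.V)
    (h : AlgebraicIndependent K (fun i => w.red (b i))) :
    AlgebraicIndependent K b ∧ ∀ a ∈ cl K (Set.range b), a ∈ w.V := by
  constructor
  · rw [algebraicIndependent_iff]
    intro p hp
    rw [algebraicIndependent_iff] at h
    apply h p
    rw [← (PLB_red_aeval w b hb p).2, hp, PLB_red_zero]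
  · apply PLB_cl_subset
    intro a ha
    rw [IntermediateField.mem_adjoin_range_iff] at ha
    obtain ⟨p, q, rfl⟩ := ha
    by_cases hq : aeval b q = 0
    · rw [hq, div_zero]
      exact w.V.zero_mem
    · have hq0 : q ≠ 0 := by
        rintro rfl
        exact hq (map_zero _)
      have h1 : w.red (aeval b q) ≠ 0 := by
        rw [(PLB_red_aeval w b hb q).2]
        intro h2
        exact hq0 (algebraicIndependent_iff.mp h q h2)
      rw [PLB_red_ne_zero_iff] at h1
      have h2 : (aeval b q)⁻¹ ∈ w.V := by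
        rw [← w.V.valuation_le_one_iff, map_inv₀, h1, inv_one]
      rw [div_eq_mul_inv]
      exact w.V.mul_mem _ _ (PLB_red_aeval w b hb p).1 h2

/-- lifting an independent set of residues -/
theorem PLB_lift_basis {s : Set L} (hs : s.Finite) (hV : ∀ a ∈ s, a ∈ w.V) :
    ∃ B ⊆ s, AlgebraicIndepOn K id B ∧ B.ncard = rk K (w.red '' s) ∧
      ∀ a ∈ cl K B, a ∈ w.V := by
  obtain ⟨B', hB's, hB'i, hB'c, -⟩ := PLB_exists_basis (K := K) (hs.image w.red)
  have h1 : ∀ y : B', ∃ a ∈ s, w.red a = y := fun y => hB's y.2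
  choose b hbs hb using h1
  have h2 : AlgebraicIndependent K (fun i => w.red (b i)) := by
    have : (fun i => w.red (b i)) = (fun y : B' => (y : w.κ)) := funext hb
    rw [this]
    exact hB'i
  obtain ⟨h3, h4⟩ := PLB_indep_of_red w b (fun i => hV _ (hbs i)) h2
  refine ⟨Set.range b, ?_, h3.to_subtype_range, ?_, h4⟩
  · rintro _ ⟨i, rfl⟩
    exact hbs i
  · rw [← hB'c, ← Set.image_univ, Set.ncard_image_of_injective _ h3.injective, Set.ncard_univ]
    rfl

end red2

theorem st_PL1 : ST_PL1.{u} := by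
  intro K L _ _ _ w s hs hV hr
  obtain ⟨B, hBs, hBi, hBc, hBV⟩ := PLB_lift_basis w hs hV
  have h1 : cl K B = cl K s := by
    refine PLB_cl_eq hs (hs.subset hBs) (hBs.trans (Pool.Agent.Helper49.Girth.subset_cl s)) ?_
    rw [PLB_rk_indep hBi, hBc]
    exact hr
  apply PLB_triv_of_subset
  intro a ha
  exact hBV a (by rw [h1]; exact ha)

theorem PL3_le {K L : Type u} [Field K] [Field L] [Algebra K L] (w : KVal K L) (t : Set L)
    (ht : t.Finite) (hV : ∀ a ∈ t, a ∈ w.V) : rk K (w.red '' t) ≤ rk K t := by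
  obtain ⟨B, hBs, hBi, hBc, hBV⟩ := PLB_lift_basis w ht hV
  rw [← hBc, ← PLB_rk_indep hBi]
  exact PLB_rk_le ht (hBs.trans (Pool.Agent.Helper49.Girth.subset_cl t))

theorem st_PL3 : ST_PL3.{u} := by
  intro K L _ _ _ w t ht hV
  refine ⟨PL3_le w t ht hV, ?_⟩
  intro s hs hts hT
  by_contra hcon
  push Not at hcon
  have h1 := PL3_le w t ht hV
  have h2 : rk K t ≤ rk K s := PLB_rk_le hs hts
  have h3 : cl K t = cl K s := PLB_cl_eq hs ht hts (by omega)
  apply hT
  rw [← h3]
  exact st_PL1 K L w t ht hV (by omega)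

end Pool.Agent.Helper92.GG
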