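import Mathlib
import Pool.Agent.Helper90.GG.PLBase

set_option autoImplicit false

namespace Pool.Agent.Helper92.GG

open MvPolynomial
open Pool.Agent.Helper49.Girth (cl ty)

universe u

section

variable {K L : Type u} [Field K] [Field L] [Algebra K L] (w : KVal K L)

/-- the residue embedding of a trivially valued subfield -/
noncomputable def PL2_theta (F : IntermediateField K L) (hF : w.Triv (F : Set L)) :
    F →ₐ[K] w.κ where
  toFun a := w.red a
  map_one' := PLB_red_one w
  map_mul' a b := PLB_red_mul w (hF a a.2).1 (hF b b.2).1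
  map_zero' := PLB_red_zero w
  map_add' a b := PLB_red_add w (hF a a.2).1 (hF b b.2).1
  commutes' c := PLB_red_algebraMap w c

theorem PL2_theta_apply (F : IntermediateField K L) (hF : w.Triv (F : Set L)) (a : F) :
    PL2_theta w F hF a = w.red a := rfl

/-- embeddings of intermediate fields transport algebraic dependence -/
theorem PL2_cl_map {Ω : Type u} [Field Ω] [Algebra K Ω] (F : IntermediateField K L)
    (θ : F →ₐ[K] Ω) (t : Set F) (a : F) (ha : (a : L) ∈ cl K (Subtype.val '' t)) :
    θ a ∈ cl K (θ '' t) := by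
  have h1 : IsAlgebraic (Algebra.adjoin K ((Subtype.val : F → L) '' t)) (a : L) :=
    Pool.Agent.Helper49.Girth.mem_cl'.mp ha
  have hadj : ∀ c ∈ Algebra.adjoin K ((Subtype.val : F → L) '' t), c ∈ F := by
    intro c hc
    have h2 : Algebra.adjoin K ((Subtype.val : F → L) '' t) ≤ F.toSubalgebra := by
      apply Algebra.adjoin_le
      rintro _ ⟨b, -, rfl⟩
      exact b.2
    exact h2 hc
  have hadj2 : ∀ c (hc : c ∈ Algebra.adjoin K ((Subtype.val : F → L) '' t)),
      θ ⟨c, hadj c hc⟩ ∈ cl K (θ '' t) := by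
    intro c hc
    have h3 : (⟨c, hadj c hc⟩ : F) ∈ Algebra.adjoin K t := by
      have h4 : Algebra.adjoin K ((Subtype.val : F → L) '' t) =
          (Algebra.adjoin K t).map F.val := (F.val.map_adjoin t).symm
      have h5 := hc
      rw [h4] at h5
      obtain ⟨d, hd, hdc⟩ := h5
      have : d = ⟨c, hadj c hc⟩ := Subtype.ext hdc
      rw [← this]
      exact hd
    have h6 : θ ⟨c, hadj c hc⟩ ∈ (Algebra.adjoin K t).map θ := ⟨_, h3, rfl⟩
    rw [θ.map_adjoin] at h6
    have h7 : Algebra.adjoin K (θ '' t) ≤ (cl K (θ '' t)).toSubalgebra :=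
      Algebra.adjoin_le (Pool.Agent.Helper49.Girth.subset_cl _)
    exact h7 h6
  obtain ⟨p, hp0, hpa⟩ := h1
  -- the polynomial over `Ω`
  let φ : Algebra.adjoin K ((Subtype.val : F → L) '' t) →+* Ω :=
    { toFun := fun c => θ ⟨c, hadj c c.2⟩
      map_one' := map_one θ
      map_mul' := fun x y => map_mul θ ⟨x, hadj x x.2⟩ ⟨y, hadj y y.2⟩
      map_zero' := map_zero θ
      map_add' := fun x y => map_add θ ⟨x, hadj x x.2⟩ ⟨y, hadj y y.2⟩ }
  have hφ : Function.Injective φ := by
    intro x y hxy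
    have h8 : (⟨x, hadj x x.2⟩ : F) = ⟨y, hadj y y.2⟩ := θ.injective hxy
    exact Subtype.ext (congrArg (Subtype.val : F → L) h8)
  refine Pool.Agent.Helper49.Girth.root_mem_cl (p.map φ) ?_ ?_ ?_
  · exact (Polynomial.map_ne_zero_iff hφ).mpr hp0
  · intro n
    rw [Polynomial.coeff_map]
    exact hadj2 _ (p.coeff n).2
  · rw [Polynomial.eval_map]
    -- evaluate in `F`
    let ψ : Algebra.adjoin K ((Subtype.val : F → L) '' t) →+* F :=
      { toFun := fun c => ⟨c, hadj c c.2⟩
        map_one' := rfl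
        map_mul' := fun _ _ => rfl
        map_zero' := rfl
        map_add' := fun _ _ => rfl }
    have h9 : p.eval₂ ψ a = 0 := by
      apply Subtype.ext
      have h10 : ((p.eval₂ ψ a : F) : L) = p.eval₂ ((F.val : F →+* L).comp ψ) (a : L) :=
        Polynomial.hom_eval₂ p ψ (F.val : F →+* L) a
      rw [h10]
      exact hpa
    have h11 : θ (p.eval₂ ψ a) = p.eval₂ ((θ : F →+* Ω).comp ψ) (θ a) :=
      Polynomial.hom_eval₂ p ψ (θ : F →+* Ω) a
    have h12 : (θ : F →+* Ω).comp ψ = φ := rfl
    rw [h12] at h11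
    rw [← h11, h9, map_zero]

/-- embeddings of intermediate fields preserve ranks -/
theorem PL2_rk_map {Ω : Type u} [Field Ω] [Algebra K Ω] (F : IntermediateField K L)
    (θ : F →ₐ[K] Ω) (t : Set F) (ht : t.Finite) :
    rk K (θ '' t) = rk K ((Subtype.val : F → L) '' t) := by
  obtain ⟨B, hBs, hBi, hBc, hBcl⟩ := PLB_exists_basis (K := K) (ht.image (Subtype.val : F → L))
  -- lift `B`
  have h1 : ∀ y : B, ∃ a ∈ t, (a : L) = y := fun y => hBs y.2
  choose b hbt hb using h1
  have h2 : AlgebraicIndependent K b := by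
    have h3 : AlgebraicIndependent K (F.val ∘ b) := by
      have : (F.val ∘ b) = (fun y : B => (y : L)) := funext hb
      rw [this]
      exact hBi
    exact AlgebraicIndependent.of_comp F.val h3
  have h4 : AlgebraicIndependent K (θ ∘ b) := h2.map' θ.injective
  have h5 : rk K (Set.range (θ ∘ b)) = rk K B := by
    rw [PLB_rk_indep h4.to_subtype_range, PLB_rk_indep hBi, ← Set.image_univ,
      Set.ncard_image_of_injective _ h4.injective, Set.ncard_univ]
    rfl
  have hrb : Set.range b ⊆ t := by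
    rintro _ ⟨i, rfl⟩
    exact hbt i
  have h6 : Subtype.val '' (Set.range b) = B := by
    ext y
    constructor
    · rintro ⟨_, ⟨i, rfl⟩, rfl⟩
      rw [hb i]
      exact i.2
    · intro hy
      exact ⟨b ⟨y, hy⟩, ⟨_, rfl⟩, hb ⟨y, hy⟩⟩
  have h7 : rk K (θ '' t) = rk K (Set.range (θ ∘ b)) := by
    apply PLB_rk_eq_of_cl_eq
    apply le_antisymm
    · apply Pool.Agent.Helper49.Girth.cl_le_cl
      rintro _ ⟨a, ha, rfl⟩
      rw [Set.range_comp]
      apply PL2_cl_map
      rw [h6, hBcl]
      exact Pool.Agent.Helper49.Girth.mem_cl_of_mem ⟨a, ha, rfl⟩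
    · apply Pool.Agent.Helper49.Girth.cl_mono
      rw [Set.range_comp]
      exact Set.image_mono hrb
  rw [h7, h5, PLB_rk_indep hBi, hBc]

/-- relative algebraic closures in algebraically closed fields are algebraically closed -/
theorem PL2_isAlgClosed [IsAlgClosed L] (s : Set L) : IsAlgClosed (cl K s) := by
  apply IsAlgClosed.of_exists_root
  intro p hp hirr
  have hdeg : (p.map (algebraMap (cl K s) L)).degree ≠ 0 := by
    rw [Polynomial.degree_map]
    exact (Polynomial.degree_pos_of_irreducible hirr).ne'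
  obtain ⟨z, hz⟩ := IsAlgClosed.exists_root _ hdeg
  have hz2 : z ∈ cl K s := by
    refine Pool.Agent.Helper49.Girth.root_mem_cl (p.map (algebraMap (cl K s) L)) ?_ ?_ hz
    · exact (Polynomial.map_ne_zero_iff (algebraMap (cl K s) L).injective).mpr hp.ne_zero
    · intro n
      rw [Polynomial.coeff_map]
      exact (p.coeff n).2
  refine ⟨⟨z, hz2⟩, ?_⟩
  have h1 : algebraMap (cl K s) L (p.eval ⟨z, hz2⟩) = 0 := by
    rw [← Polynomial.eval_map_apply]
    exact hz
  exact (map_eq_zero_iff _ (algebraMap (cl K s) L).injective).mp h1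

end

theorem st_PL2 : ST_PL2.{u} := by
  intro K L _ _ _ w s hT
  refine ⟨⟨PL2_theta w (cl K s) hT, fun a => rfl⟩, ?_, ?_, ?_⟩
  · intro t ht hts
    have h1 : (Subtype.val : cl K s → L) '' (Subtype.val ⁻¹' t) = t := by
      ext y
      constructor
      · rintro ⟨b, hb, rfl⟩
        exact hb
      · intro hy
        exact ⟨⟨y, hts hy⟩, hy, rfl⟩
    have h2 : (PL2_theta w (cl K s) hT) '' (Subtype.val ⁻¹' t) = w.red '' t := by
      ext y
      constructor
      · rintro ⟨a, ha, rfl⟩
        exact ⟨a, ha, rfl⟩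
      · rintro ⟨a, ha, rfl⟩
        exact ⟨⟨a, hts ha⟩, ha, rfl⟩
    rw [← h2, PL2_rk_map, h1]
    exact ht.preimage Subtype.val_injective.injOn
  · intro t hts a ha
    have hcl : cl K t ≤ cl K s := Pool.Agent.Helper49.Girth.cl_le_cl hts
    have h1 : (Subtype.val : cl K s → L) '' (Subtype.val ⁻¹' t) = t := by
      ext y
      constructor
      · rintro ⟨b, hb, rfl⟩
        exact hb
      · intro hy
        exact ⟨⟨y, hts hy⟩, hy, rfl⟩
    have h2 : (PL2_theta w (cl K s) hT) '' (Subtype.val ⁻¹' t) = w.red '' t := by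
      ext y
      constructor
      · rintro ⟨a, ha, rfl⟩
        exact ⟨a, ha, rfl⟩
      · rintro ⟨a, ha, rfl⟩
        exact ⟨⟨a, hts ha⟩, ha, rfl⟩
    have h3 := PL2_cl_map (cl K s) (PL2_theta w (cl K s) hT) (Subtype.val ⁻¹' t)
      ⟨a, hcl ha⟩ (by rw [h1]; exact ha)
    rw [h2] at h3
    exact h3
  · intro _ b hb
    have hac : IsAlgClosed (cl K s) := PL2_isAlgClosed s
    let θ := PL2_theta w (cl K s) hT
    have h1 : IsAlgebraic (Algebra.adjoin K (w.red '' s)) b :=
      Pool.Agent.Helper49.Girth.mem_cl'.mp hb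
    obtain ⟨p, hp0, hpb⟩ := h1
    have hadj : ∀ c ∈ Algebra.adjoin K (w.red '' s), c ∈ θ.range := by
      have h2 : Algebra.adjoin K (w.red '' s) ≤ θ.range := by
        apply Algebra.adjoin_le
        rintro _ ⟨a, ha, rfl⟩
        exact ⟨⟨a, Pool.Agent.Helper49.Girth.mem_cl_of_mem ha⟩, rfl⟩
      exact fun c hc => h2 hc
    have h3 : p.map (algebraMap (Algebra.adjoin K (w.red '' s)) w.κ) ∈
        Polynomial.lifts (θ : cl K s →+* w.κ) := by
      rw [Polynomial.lifts_iff_coeff_lifts]
      intro n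
      rw [Polynomial.coeff_map]
      obtain ⟨d, hd⟩ := hadj _ (p.coeff n).2
      exact ⟨d, hd⟩
    obtain ⟨q, hq⟩ := h3
    have hq' : q.map (θ : cl K s →+* w.κ) =
      p.map (algebraMap (Algebra.adjoin K (w.red '' s)) w.κ) := hq
    have hq0 : q ≠ 0 := by
      rintro rfl
      rw [Polynomial.map_zero] at hq'
      have h4 := (Polynomial.map_eq_zero_iff (f := algebraMap (Algebra.adjoin K (w.red '' s)) w.κ)
        Subtype.val_injective).mp hq'.symm
      exact hp0 h4
    have hroot : (q.map (θ : cl K s →+* w.κ)).eval b = 0 := by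
      rw [hq', Polynomial.eval_map]
      exact hpb
    have hsplit : q.Splits := IsAlgClosed.splits q
    have h5 : b ∈ (q.map (θ : cl K s →+* w.κ)).roots := by
      rw [Polynomial.mem_roots]
      · exact hroot
      · exact (Polynomial.map_ne_zero_iff (θ : cl K s →+* w.κ).injective).mpr hq0
    rw [hsplit.roots_map] at h5
    obtain ⟨a, -, ha⟩ := Multiset.mem_map.mp h5
    exact ⟨a, a.2, ha⟩

theorem st_PL5 : ST_PL5.{u} := by
  intro K L _ _ _ _ w
  apply IsAlgClosed.of_exists_root
  intro p hp hirr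
  have h1 : ∃ q : Polynomial w.V, q.map (PLB_res w) = p ∧ q.degree = p.degree ∧ q.Monic := by
    refine Polynomial.lifts_and_degree_eq_and_monic ?_ hp
    rw [Polynomial.lifts_iff_coeff_lifts]
    intro n
    exact PLB_res_surjective w _
  obtain ⟨q, hqp, hqd, hqm⟩ := h1
  have hdeg : (q.map (algebraMap w.V L)).degree ≠ 0 := by
    rw [hqm.degree_map, hqd]
    exact (Polynomial.degree_pos_of_irreducible hirr).ne'
  obtain ⟨z, hz⟩ := IsAlgClosed.exists_root _ hdeg
  have h2 : IsIntegral w.V z := by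
    refine ⟨q, hqm, ?_⟩
    rw [← Polynomial.eval_map]
    exact hz
  obtain ⟨b, hb⟩ := (IsIntegrallyClosed.isIntegral_iff (R := w.V) (K := L)).mp h2
  refine ⟨PLB_res w b, ?_⟩
  rw [← hqp, Polynomial.eval_map, Polynomial.eval₂_at_apply]
  have h3 : q.eval b = 0 := by
    apply (map_eq_zero_iff (algebraMap w.V L) (IsFractionRing.injective w.V L)).mp
    rw [← Polynomial.eval_map_apply, hb]
    exact hz
  rw [h3, map_zero]

end Pool.Agent.Helper92.GG
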