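import Mathlib
import Pool.Agent.Helper92.GG.Stmts
import Pool.Agent.Helper92.GG.Walk

set_option autoImplicit false

namespace Pool.Agent.Helper92.GG

open MvPolynomial
open Pool.Agent.Helper49.Girth (cl ty mem_cl mem_cl' coe_cl subset_cl mem_cl_of_mem cl_le_cl cl_mono
  root_mem_cl aeval_mem)

universe u

section

variable {K : Type u} [Field K] {ι : Type} {L L' : Type u} [Field L] [Field L'] [Algebra K L]
  [Algebra K L']

/-- evaluation of a polynomial with one variable singled out -/
theorem STEP1_eval (x : ι → L) (T : L) (f : MvPolynomial (Option ι) K) :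
    aeval (fun o : Option ι => o.elim T x) f =
      ((optionEquivLeft K ι f).map (aeval x : MvPolynomial ι K →ₐ[K] L).toRingHom).eval T := by
  rw [Polynomial.eval_map]
  induction f using MvPolynomial.induction_on with
  | C c =>
    rw [aeval_C, optionEquivLeft_C, Polynomial.eval₂_C]
    exact (aeval_C x c).symm
  | add p q hp hq =>
    rw [map_add, map_add, Polynomial.eval₂_add, hp, hq]
  | mul_X p i hp =>
    rw [map_mul, map_mul, Polynomial.eval₂_mul, hp, aeval_X]
    congr 1
    cases i with
    | none =>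
      rw [optionEquivLeft_X_none, Polynomial.eval₂_X]
      rfl
    | some i =>
      rw [optionEquivLeft_X_some, Polynomial.eval₂_C]
      exact (aeval_X x i).symm

/-- adding transcendental elements to specializations -/
theorem STEP1_spec {x : ι → L} {x' : ι → L'} (h : Spec K x x') {T : L} (T' : L')
    (hT : T ∉ cl K (Set.range x)) :
    Spec K (fun o : Option ι => o.elim T x) (fun o : Option ι => o.elim T' x') := by
  intro f hf
  rw [STEP1_eval] at hf ⊢
  have h1 : (optionEquivLeft K ι f).map (aeval x : MvPolynomial ι K →ₐ[K] L).toRingHom = 0 := by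
    by_contra hne
    apply hT
    refine root_mem_cl _ hne ?_ hf
    intro n
    rw [Polynomial.coeff_map]
    exact aeval_mem (cl K (Set.range x)) x (fun i => mem_cl_of_mem (Set.mem_range_self i)) _
  have h2 : (optionEquivLeft K ι f).map (aeval x' : MvPolynomial ι K →ₐ[K] L').toRingHom = 0 := by
    ext n
    rw [Polynomial.coeff_map, Polynomial.coeff_zero]
    apply h
    have h3 := congrArg (fun p => Polynomial.coeff p n) h1
    simp only [Polynomial.coeff_map, Polynomial.coeff_zero] at h3
    exact h3
  rw [h2, Polynomial.eval_zero]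

theorem STEP1_conj {x : ι → L} {x' : ι → L'} (h : Conj K x x') {T : L} {T' : L'}
    (hT : T ∉ cl K (Set.range x)) (hT' : T' ∉ cl K (Set.range x')) :
    Conj K (fun o : Option ι => o.elim T x) (fun o : Option ι => o.elim T' x') :=
  Conj.of_spec (STEP1_spec h.spec T' hT) (STEP1_spec h.symm.spec T hT')

omit [Field L] in
theorem STEP1_range (x : ι → L) (T : L) :
    Set.range (fun o : Option ι => o.elim T x) = insert T (Set.range x) := by
  ext a
  constructor
  · rintro ⟨o, rfl⟩
    cases o with
    | none => exact Or.inl rfl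
    | some i => exact Or.inr ⟨i, rfl⟩
  · rintro (rfl | ⟨i, rfl⟩)
    · exact ⟨none, rfl⟩
    · exact ⟨some i, rfl⟩

end

/-- the coordinates of a neighbour are algebraic over the vertex and the coordinate `t` -/
theorem STEP1_mem_cl {K : Type u} [Field K] [IsAlgClosed K] {n m : ℕ} (S : SysT K n m)
    {L : Type u} [Field L] [Algebra K L] {σ : Bool} {x y : Fin n → L} (h : Edge S.P σ x y)
    (c : Fin n) : y c ∈ cl K (insert (y (S.t (!σ))) (Set.range x)) := by
  have h1 := S.rk_edge h
  have h2 := S.rk_vtx h.vtx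
  have h3 := rk_insert_of_notMem (Set.finite_range x) (S.trans L σ x y h)
  have hfx := Set.finite_range x
  have hfy := Set.finite_range y
  have h4 : insert (y (S.t (!σ))) (Set.range x) ⊆ Set.range x ∪ Set.range y := by
    rintro a (rfl | ha)
    · exact Or.inr ⟨_, rfl⟩
    · exact Or.inl ha
  exact subset_cl_of_rk_le (hfx.union hfy) h4 (by rw [h1, h3, h2]; ring_nf; exact le_rfl)
    (Or.inr ⟨c, rfl⟩)

theorem st_STEP1 (hCONJ : ST_CONJ.{u}) : ST_STEP1.{u} := by
  intro K _ _ n m S L _ _ _ σ x T hx hT
  obtain ⟨L₀, i1, i2, a, b, hab⟩ := S.exists_edge σ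
  have hc : Conj K a x := hab.vtx.conj hx
  have hc2 := STEP1_conj hc (S.trans L₀ σ a b hab) hT
  obtain ⟨θ, hθ⟩ := hCONJ K L₀ L (Option (Fin n)) _ _ hc2
  have hb : ∀ c, b c ∈ cl K (Set.range (fun o : Option (Fin n) => o.elim (b (S.t (!σ))) a)) := by
    intro c
    rw [STEP1_range]
    exact STEP1_mem_cl S hab c
  have ha : ∀ c, a c ∈ cl K (Set.range (fun o : Option (Fin n) => o.elim (b (S.t (!σ))) a)) :=
    fun c => mem_cl_of_mem ⟨some c, rfl⟩
  refine ⟨fun c => θ ⟨b c, hb c⟩, ?_, ?_⟩
  · refine (edge_map_cl (P := S.P) (x := a) (y := b) (x' := x) (y' := fun c => θ ⟨b c, hb c⟩)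
      θ ha hb (fun c d hd => hθ (some c) d hd) ?_).mp hab
    intro c d hd
    congr 1
    exact Subtype.ext hd
  · exact hθ none ⟨b (S.t (!σ)), hb _⟩ rfl

end Pool.Agent.Helper92.GG
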