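import Mathlib
import Pool.Agent.Helper92.GG.Stmts
import Pool.Agent.Helper92.GG.Walk
import Pool.Agent.Helper90.GG.STEP1

set_option autoImplicit false

namespace Pool.Agent.Helper92.GG

open MvPolynomial
open Pool.Agent.Helper49.Girth (cl ty mem_cl mem_cl' coe_cl subset_cl mem_cl_of_mem cl_le_cl cl_mono
  root_mem_cl aeval_mem)

universe u

section

variable {K : Type u} [Field K] [IsAlgClosed K] {n m : ℕ} (S : SysT K n m)
  {L : Type u} [Field L] [Algebra K L]

/-- the coordinates of the elements of a fibre are roots of a nonzero polynomial -/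
theorem FIB_poly {σ : Bool} {x z₀ : Fin n → L} {c : L} (h₀ : z₀ ∈ Fib S σ x c) (d : Fin n) :
    ∃ p : Polynomial L, p ≠ 0 ∧ ∀ z ∈ Fib S σ x c, p.eval (z d) = 0 := by
  obtain ⟨hE, hc⟩ := h₀
  have h1 := STEP1_mem_cl S hE d
  rw [hc, ← STEP1_range, mem_cl'] at h1
  obtain ⟨p, hp0, hp⟩ := h1
  have hlift : ∀ k, ∃ f : MvPolynomial (Option (Fin n)) K,
      aeval (fun o : Option (Fin n) => o.elim c x) f = (p.coeff k : L) :=
    fun k => exists_aeval_of_mem_adjoin _ (p.coeff k).2
  have hlift2 : p.map (algebraMap (Algebra.adjoin K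
      (Set.range (fun o : Option (Fin n) => o.elim c x))) L) ∈ Polynomial.lifts
      ((aeval (fun o : Option (Fin n) => o.elim c x) :
        MvPolynomial (Option (Fin n)) K →ₐ[K] L).toRingHom) := by
    rw [Polynomial.lifts_iff_coeff_lifts]
    intro k
    rw [Polynomial.coeff_map]
    obtain ⟨f, hf⟩ := hlift k
    exact ⟨f, hf⟩
  obtain ⟨q, hq⟩ := hlift2
  have hq' : q.map ((aeval (fun o : Option (Fin n) => o.elim c x) :
        MvPolynomial (Option (Fin n)) K →ₐ[K] L).toRingHom) =
      p.map (algebraMap (Algebra.adjoin K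
        (Set.range (fun o : Option (Fin n) => o.elim c x))) L) := hq
  refine ⟨p.map (algebraMap (Algebra.adjoin K
        (Set.range (fun o : Option (Fin n) => o.elim c x))) L),
    (Polynomial.map_ne_zero_iff Subtype.val_injective).mpr hp0, ?_⟩
  intro z hz
  obtain ⟨hzE, hzc⟩ := hz
  have hconj := hE.conj hzE
  have hconj2 := hconj.comp (fun o : Option (Option (Fin n)) =>
    (o.elim (Sum.inr d) (fun o' => o'.elim (Sum.inr (S.t (!σ))) Sum.inl) : Fin n ⊕ Fin n))
  have e : ∀ y : Fin n → L, y (S.t (!σ)) = c → (Sum.elim x y ∘ (fun o : Option (Option (Fin n)) =>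
    (o.elim (Sum.inr d) (fun o' => o'.elim (Sum.inr (S.t (!σ))) Sum.inl) : Fin n ⊕ Fin n))) =
      (fun o : Option (Option (Fin n)) => o.elim (y d)
        (fun o : Option (Fin n) => o.elim c x)) := by
    intro y hy
    funext o
    rcases o with _ | _ | i
    · rfl
    · exact hy
    · rfl
  rw [e z₀ hc, e z hzc] at hconj2
  have h2 := hconj2 ((optionEquivLeft K (Option (Fin n))).symm q)
  rw [STEP1_eval, STEP1_eval, AlgEquiv.apply_symm_apply, hq'] at h2
  rw [← h2, Polynomial.eval_map]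
  exact hp

theorem FIB_finite {σ : Bool} {x : Fin n → L} (c : L) : (Fib S σ x c).Finite := by
  rcases (Fib S σ x c).eq_empty_or_nonempty with h | ⟨z₀, h₀⟩
  · rw [h]; exact Set.finite_empty
  · have h1 : ∀ d, ∃ p : Polynomial L, p ≠ 0 ∧ ∀ z ∈ Fib S σ x c, p.eval (z d) = 0 :=
      fun d => FIB_poly S h₀ d
    choose p hp0 hp using h1
    have h2 : (Set.pi Set.univ (fun d => {a : L | (p d).eval a = 0})).Finite := by
      apply Set.Finite.pi
      intro d
      exact (p d).finite_setOfPred_isRoot (hp0 d)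
    refine h2.subset ?_
    intro z hz d _
    exact hp d z hz

theorem FIB_le (hCONJ : ST_CONJ.{u}) [IsAlgClosed L] {σ : Bool} {x : Fin n → L} {c c' : L}
    (hc : c ∉ cl K (Set.range x)) (hc' : c' ∉ cl K (Set.range x)) :
    (Fib S σ x c).ncard ≤ (Fib S σ x c').ncard := by
  have hc2 := STEP1_conj (K := K) (x := x) (x' := x) (fun f => Iff.rfl) hc hc'
  obtain ⟨θ, hθ⟩ := hCONJ K L L (Option (Fin n)) _ _ hc2
  have hb : ∀ z ∈ Fib S σ x c, ∀ d,
      z d ∈ cl K (Set.range (fun o : Option (Fin n) => o.elim c x)) := by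
    intro z hz d
    rw [STEP1_range]
    have := STEP1_mem_cl S hz.1 d
    rw [hz.2] at this
    exact this
  have ha : ∀ d, x d ∈ cl K (Set.range (fun o : Option (Fin n) => o.elim c x)) :=
    fun d => mem_cl_of_mem ⟨some d, rfl⟩
  have hspec : ∀ (z : Fin n → L) (hz : z ∈ Fib S σ x c),
      (fun d => θ ⟨z d, hb z hz d⟩) ∈ Fib S σ x c' := by
    intro z hz
    refine ⟨?_, ?_⟩
    · refine (edge_map_cl (P := S.P) (x := x) (y := z) (x' := x)
        (y' := fun d => θ ⟨z d, hb z hz d⟩)
        θ ha (hb z hz) (fun d b hd => hθ (some d) b hd) ?_).mp hz.1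
      intro d b hd
      congr 1
      exact Subtype.ext hd
    · exact hθ none ⟨z (S.t (!σ)), hb z hz _⟩ hz.2
  classical
  refine Set.ncard_le_ncard_of_injOn
    (fun z => if hz : z ∈ Fib S σ x c then (fun d => θ ⟨z d, hb z hz d⟩) else z) ?_ ?_
    (FIB_finite S c')
  · intro z hz
    simp only [dif_pos hz]
    exact hspec z hz
  · intro z hz z' hz' hzz
    simp only [dif_pos hz, dif_pos hz'] at hzz
    funext d
    have h1 := congrFun hzz d
    have h2 := θ.injective h1
    exact congrArg Subtype.val h2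

end

theorem st_FIB (hCONJ : ST_CONJ.{u}) (hPL2 : ST_PL2.{u}) : ST_FIB.{u} := by
  intro K _ _ n m S L _ _ _ σ x hx
  refine ⟨fun c => FIB_finite S c, ?_, ?_, ?_⟩
  · intro c hc
    obtain ⟨y, hy1, hy2⟩ := st_STEP1 hCONJ K n m S L σ x c hx hc
    exact ⟨y, hy1, hy2⟩
  · intro c c' hc hc'
    exact le_antisymm (FIB_le S hCONJ hc hc') (FIB_le S hCONJ hc' hc)
  · intro w s hT hxs c hcs hcx z hz
    obtain ⟨⟨θ, hθ⟩, h2, h3, h4⟩ := hPL2 K L w s hT
    have h5 : ∀ a ∈ cl K s, w.red a ∈ cl K (w.red '' s) :=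
      fun a ha => h3 s (subset_cl s) a ha
    have h6 : ∀ d, ∃ a ∈ cl K s, w.red a = z d := by
      intro d
      apply h4 inferInstance
      have h7 := STEP1_mem_cl S hz.1 d
      rw [hz.2] at h7
      refine cl_le_cl ?_ h7
      rintro a (rfl | ⟨e, rfl⟩)
      · exact h5 c hcs
      · exact h5 (x e) (hxs e)
    choose a has haz using h6
    refine ⟨a, ⟨?_, ?_⟩, funext haz⟩
    · refine (edge_map_cl (P := S.P) (x := x) (y := a) (x' := w.redv x) (y' := z)
        θ hxs has ?_ ?_).mpr hz.1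
      · intro d b hd
        rw [hθ b, hd]
        rfl
      · intro d b hd
        rw [hθ b, hd]
        exact haz d
    · have h8 : w.red (a (S.t (!σ))) = w.red c := by
        rw [haz]
        exact hz.2
      have h9 : θ ⟨a (S.t (!σ)), has _⟩ = θ ⟨c, hcs⟩ := by
        rw [hθ, hθ]
        exact h8
      exact congrArg Subtype.val (θ.injective h9)

end Pool.Agent.Helper92.GG
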