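import Mathlib
import Pool.Agent.Helper92.GG.Stmts
import Pool.Agent.Helper92.GG.Walk
import Pool.Agent.Helper90.GG.PLBase

set_option autoImplicit false

namespace Pool.Agent.Helper92.GG

open MvPolynomial
open Pool.Agent.Helper49.Girth (cl ty mem_cl mem_cl' coe_cl subset_cl mem_cl_of_mem cl_le_cl cl_mono
  root_mem_cl aeval_mem)

universe u

/-- residues of polynomial expressions over a trivially valued field -/
theorem GOOD_red_aeval {K L : Type u} [Field K] [Field L] [Algebra K L] (w : KVal K L) {s : Set L}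
    (hT : w.Triv (cl K s)) (θ : cl K s →ₐ[K] w.κ) (hθ : ∀ a : cl K s, θ a = w.red a)
    {ι : Type*} (y : ι → L) (hy : ∀ i, y i ∈ w.V) (f : MvPolynomial ι (cl K s)) :
    aeval y f ∈ w.V ∧ w.red (aeval y f) =
      eval₂ (θ : cl K s →+* w.κ) (fun i => w.red (y i)) f := by
  induction f using MvPolynomial.induction_on with
  | C c =>
    rw [aeval_C, eval₂_C]
    exact ⟨(hT c c.2).1, (hθ c).symm⟩
  | add p q hp hq =>
    rw [map_add, eval₂_add]
    exact ⟨w.V.add_mem _ _ hp.1 hq.1, by rw [PLB_red_add w hp.1 hq.1, hp.2, hq.2]⟩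
  | mul_X p i hp =>
    rw [map_mul, eval₂_mul, aeval_X, eval₂_X]
    exact ⟨w.V.mul_mem _ _ hp.1 (hy i), by rw [PLB_red_mul w hp.1 (hy i), hp.2]⟩

theorem st_GOOD (hPL2 : ST_PL2.{u}) : ST_GOOD.{u} := by
  intro K _ _ L _ _ _ n s hs x v V hV hv hspec hne hf
  let w : KVal K L := ⟨V, fun c => hV (algebraMap K (cl K s) c)⟩
  have hT : w.Triv (cl K s) := PLB_triv_of_subset w (cl K s) (fun a ha => hV ⟨a, ha⟩)
  obtain ⟨⟨θ, hθ⟩, h2, h3, h4⟩ := hPL2 K L w s hT
  refine ⟨w, rfl, hT, hv, ?_, ?_, ?_⟩
  · intro f hf0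
    have h5 := (GOOD_red_aeval w hT θ hθ v hv f).1
    rw [PLB_red_eq_zero_iff w h5] at hf0
    have h6 := hspec f hf0
    have h7 : aeval (fun i => (x i : L)) f = ((aeval x f : cl K s) : L) := by
      have := (comp_aeval_apply (φ := (Algebra.ofId (cl K s) L)) (f := x) f)
      rw [show ((aeval x f : cl K s) : L) = (Algebra.ofId (cl K s) L) (aeval x f) from rfl, this]
      rfl
    rw [h7, h6]
    rfl
  · intro heq
    obtain ⟨i, hi⟩ := hne
    apply hi
    have h5 : w.red (v i) = w.red (x i) := congrFun heq i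
    have h6 : v i - x i ∈ w.V := sub_mem (hv i) (hV (x i))
    rw [show V = w.V from rfl, ← PLB_red_eq_zero_iff w h6]
    have h7 := PLB_red_add w h6 (hV (x i))
    rw [sub_add_cancel, h5] at h7
    exact left_eq_add.mp (by rw [add_comm]; exact h7)
  · by_contra hcon
    push Not at hcon
    have hfin : (w.red '' s).Finite := hs.image _
    rw [rk_union_eq hfin (Set.finite_range _), h2 s hs (subset_cl s)] at hcon
    obtain ⟨J, hJ1, hJ2, hJ3⟩ := exists_basis_family (K := cl K (w.red '' s)) (w.redv v)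
    have hJ4 : 1 < J.ncard := by rw [hJ3]; omega
    rw [Set.one_lt_ncard_iff] at hJ4
    obtain ⟨i, j, hi, hj, hij⟩ := hJ4
    have h5 : AlgebraicIndependent (cl K (w.red '' s)) ![w.red (v i), w.red (v j)] := by
      have h6 := hJ1.comp (![⟨i, hi⟩, ⟨j, hj⟩] : Fin 2 → J) (by
        intro a b hab
        fin_cases a <;> fin_cases b
        · rfl
        · exact absurd (congrArg Subtype.val hab) hij
        · exact absurd (congrArg Subtype.val hab).symm hij
        · rfl)
      have h7 : (fun j : J => w.redv v j) ∘ (![⟨i, hi⟩, ⟨j, hj⟩] : Fin 2 → J) =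
          ![w.red (v i), w.red (v j)] := by
        funext a
        fin_cases a <;> rfl
      rw [h7] at h6
      exact h6
    obtain ⟨f, hf0, hfv⟩ := hf (v i) (Algebra.subset_adjoin ⟨i, rfl⟩) (v j)
      (Algebra.subset_adjoin ⟨j, rfl⟩)
    have hy : ∀ a, (![v i, v j] : Fin 2 → L) a ∈ w.V := by
      intro a
      fin_cases a
      · exact hv i
      · exact hv j
    obtain ⟨h8, h9⟩ := GOOD_red_aeval w hT θ hθ ![v i, v j] hy f
    have h10 : w.red (aeval ![v i, v j] f) = 0 := (PLB_red_eq_zero_iff w h8).mpr hfv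
    rw [h10] at h9
    have hφm : ∀ a : cl K s, θ a ∈ cl K (w.red '' s) := by
      intro a
      rw [hθ]
      exact h3 s (subset_cl s) a a.2
    let φ : cl K s →+* cl K (w.red '' s) :=
      { toFun := fun a => ⟨θ a, hφm a⟩
        map_one' := Subtype.ext (map_one θ)
        map_mul' := fun a b => Subtype.ext (map_mul θ a b)
        map_zero' := Subtype.ext (map_zero θ)
        map_add' := fun a b => Subtype.ext (map_add θ a b) }
    have h11 : aeval ![w.red (v i), w.red (v j)] (map φ f) = 0 := by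
      rw [aeval_def, eval₂_map]
      have e1 : (algebraMap (cl K (w.red '' s)) w.κ).comp φ = (θ : cl K s →+* w.κ) := rfl
      rw [e1, h9]
      congr 1
      funext a
      fin_cases a <;> rfl
    have h12 := algebraicIndependent_iff.mp h5 _ h11
    apply hf0
    exact (map_eq_zero_iff _ (map_injective φ φ.injective)).mp h12

end Pool.Agent.Helper92.GG
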