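import Mathlib
import Pool.Agent.Helper92.GG.Stmts
import Pool.Agent.Helper92.GG.Walk
import Pool.Agent.Helper90.GG.PLBase
import Pool.Agent.Helper90.GG.STEP1

set_option autoImplicit false

namespace Pool.Agent.Helper92.GG

open MvPolynomial
open Pool.Agent.Helper49.Girth (cl ty mem_cl mem_cl' coe_cl subset_cl mem_cl_of_mem cl_le_cl cl_mono
  root_mem_cl aeval_mem)

universe u

/-- a valuation subring with prescribed centre -/
theorem VGS_dominate {R L' : Type u} [CommRing R] [Field L'] (g : R →+* L') (p : Ideal R)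
    [hp : p.IsPrime] (hg : ∀ a, g a = 0 → a ∈ p) :
    ∃ A : ValuationSubring L', (∀ a, g a ∈ A) ∧ ∀ a, A.valuation (g a) < 1 ↔ a ∈ p := by
  have hu : ∀ y : p.primeCompl, IsUnit (g y) := by
    intro y
    exact isUnit_iff_ne_zero.mpr (fun h => y.2 (hg _ h))
  let f : Localization.AtPrime p →+* L' := IsLocalization.lift hu
  obtain ⟨A, h1, h2⟩ := IsLocalRing.exists_factor_valuationRing f
  have hf : ∀ a, f (algebraMap R (Localization.AtPrime p) a) = g a :=
    fun a => IsLocalization.lift_eq hu a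
  have hA : ∀ a, g a ∈ A := by
    intro a
    rw [← hf]
    exact h1 _
  refine ⟨A, hA, fun a => ?_⟩
  have h3 : A.valuation (g a) < 1 ↔ (⟨g a, hA a⟩ : A) ∈ IsLocalRing.maximalIdeal A :=
    (A.valuation_lt_one_iff ⟨g a, hA a⟩).symm
  rw [h3, IsLocalRing.mem_maximalIdeal, mem_nonunits_iff]
  have h4 : (f.codRestrict A.toSubring h1) (algebraMap R (Localization.AtPrime p) a) =
      (⟨g a, hA a⟩ : A) := Subtype.ext (hf a)
  have h5 : IsUnit (⟨g a, hA a⟩ : A) ↔ IsUnit (algebraMap R (Localization.AtPrime p) a) := by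
    rw [← h4]
    constructor
    · intro h
      exact h2.map_nonunit _ h
    · intro h
      exact h.map _
  rw [h5, IsLocalization.AtPrime.isUnit_to_map_iff (Localization.AtPrime p) p]
  simp [Ideal.primeCompl]

/-- Gauss valuations -/
theorem VGS_place {K L L' : Type u} [Field K] [Field L] [Field L'] [Algebra K L] [Algebra K L']
    [Algebra L L'] [IsScalarTower K L L'] (w : KVal K L) (T : L') (hT : Transcendental L T) :
    ∃ w' : KVal K L', w.Ext w' ∧ T ∈ w'.V ∧ ∃ ψ : Polynomial w.κ →+* w'.κ,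
      Function.Injective ψ ∧ ψ Polynomial.X = w'.red T ∧
      ∀ a ∈ w.V, ψ (Polynomial.C (w.red a)) = w'.red (algebraMap L L' a) := by
  let i₀ : w.V →+* L' := (algebraMap L L').comp w.V.subtype
  let g : Polynomial w.V →+* L' := Polynomial.eval₂RingHom i₀ T
  let φ : Polynomial w.V →+* Polynomial w.κ := Polynomial.mapRingHom (PLB_res w)
  have hφs : Function.Surjective φ := Polynomial.map_surjective _ (PLB_res_surjective w)
  have hp : (RingHom.ker φ).IsPrime := RingHom.ker_isPrime φ
  have hg : ∀ a, g a = 0 → a ∈ RingHom.ker φ := by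
    intro a ha
    have h1 : Polynomial.aeval T (a.map w.V.subtype) = 0 := by
      rw [Polynomial.aeval_def, Polynomial.eval₂_map]
      exact ha
    have h2 : a.map w.V.subtype = 0 := by
      by_contra hne
      exact hT ⟨_, hne, h1⟩
    have h3 : a = 0 := (Polynomial.map_eq_zero_iff Subtype.val_injective).mp h2
    rw [h3]
    exact zero_mem _
  obtain ⟨A, hA, hA2⟩ := VGS_dominate g (RingHom.ker φ) hg
  have hgC : ∀ a : w.V, g (Polynomial.C a) = algebraMap L L' a := by
    intro a
    exact Polynomial.eval₂_C _ _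
  have hgX : g Polynomial.X = T := Polynomial.eval₂_X _ _
  let w' : KVal K L' := ⟨A, fun c => by
    have h1 := hA (Polynomial.C ⟨algebraMap K L c, w.hK c⟩)
    rw [hgC] at h1
    rw [IsScalarTower.algebraMap_apply K L L']
    exact h1⟩
  have hφC : ∀ a : w.V, Polynomial.C a ∈ RingHom.ker φ ↔ PLB_res w a = 0 := by
    intro a
    rw [RingHom.mem_ker]
    change Polynomial.map (PLB_res w) (Polynomial.C a) = 0 ↔ _
    rw [Polynomial.map_C, Polynomial.C_eq_zero]
  -- the residue of `g a`
  let Ψ : Polynomial w.V →+* w'.κ :=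
    (PLB_res w').comp (g.codRestrict w'.V.toSubring hA)
  have hΨ : ∀ a, Ψ a = w'.red (g a) := fun a => (PLB_red_mk w' (hA a)).symm
  have hΨ0 : ∀ a, Ψ a = 0 ↔ a ∈ RingHom.ker φ := by
    intro a
    rw [hΨ, PLB_red_eq_zero_iff w' (hA a)]
    exact hA2 a
  obtain ⟨φinv, hφinv⟩ := hφs.hasRightInverse
  have hker : RingHom.ker φ ≤ RingHom.ker Ψ := fun a ha => (hΨ0 a).mpr ha
  let ψ : Polynomial w.κ →+* w'.κ := φ.liftOfRightInverse φinv hφinv ⟨Ψ, hker⟩
  have hψ : ∀ a, ψ (φ a) = Ψ a := fun a =>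
    RingHom.liftOfRightInverse_comp_apply φ φinv hφinv ⟨Ψ, hker⟩ a
  have hcst : ∀ a ∈ w.V, algebraMap L L' a ∈ w'.V := by
    intro a ha
    have h1 := hA (Polynomial.C ⟨a, ha⟩)
    rw [hgC] at h1
    exact h1
  refine ⟨w', ?_, ?_, ψ, ?_, ?_, ?_⟩
  · intro a
    refine ⟨fun h => ?_, hcst a⟩
    by_contra hn
    have ha0 : a ≠ 0 := by
      rintro rfl
      exact hn w.V.zero_mem
    have h1 : a⁻¹ ∈ w.V := (w.V.mem_or_inv_mem a).resolve_left hn
    have h2 : w.V.valuation a⁻¹ < 1 := by
      rw [map_inv₀]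
      have h3 : 1 < w.V.valuation a := by
        rw [← not_le, w.V.valuation_le_one_iff]
        exact hn
      exact inv_lt_one_of_one_lt₀ h3
    have h3 : PLB_res w ⟨a⁻¹, h1⟩ = 0 := (PLB_res_eq_zero_iff w ⟨a⁻¹, h1⟩).mpr h2
    have h4 := (hA2 (Polynomial.C ⟨a⁻¹, h1⟩)).mpr ((hφC _).mpr h3)
    rw [hgC] at h4
    change w'.V.valuation (algebraMap L L' a⁻¹) < 1 at h4
    rw [map_inv₀, map_inv₀] at h4
    have h5 : w'.V.valuation (algebraMap L L' a) ≤ 1 := (w'.V.valuation_le_one_iff _).mpr h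
    have h6 : w'.V.valuation (algebraMap L L' a) ≠ 0 := by
      rw [Valuation.ne_zero_iff]
      exact (map_ne_zero_iff _ (algebraMap L L').injective).mpr ha0
    have h7 : 1 ≤ (w'.V.valuation (algebraMap L L' a))⁻¹ :=
      (one_le_inv₀ (zero_lt_iff.mpr h6)).mpr h5
    exact absurd h4 (not_lt.mpr h7)
  · have h1 := hA Polynomial.X
    rw [hgX] at h1
    exact h1
  · rw [injective_iff_map_eq_zero]
    intro f hf
    obtain ⟨a, rfl⟩ := hφs f
    rw [hψ] at hf
    exact (RingHom.mem_ker).mp ((hΨ0 a).mp hf)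
  · have h1 := hψ Polynomial.X
    rw [hΨ, hgX] at h1
    rw [← h1]
    congr 1
    exact (Polynomial.map_X (PLB_res w)).symm
  · intro a ha
    have h1 := hψ (Polynomial.C ⟨a, ha⟩)
    rw [hΨ, hgC] at h1
    rw [← h1]
    congr 1
    rw [PLB_red_mk w ha]
    exact (Polynomial.map_C (PLB_res w)).symm

theorem VGS_trans {K L L' : Type u} [Field K] [Field L] [Field L'] [Algebra K L] [Algebra K L']
    [Algebra L L'] [IsScalarTower K L L'] (w : KVal K L) (w' : KVal K L') (T : L')
    (ψ : Polynomial w.κ →+* w'.κ) (hψ : Function.Injective ψ)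
    (hX : ψ Polynomial.X = w'.red T)
    (hC : ∀ a ∈ w.V, ψ (Polynomial.C (w.red a)) = w'.red (algebraMap L L' a)) (s : Set L)
    (hs : ∀ a ∈ s, a ∈ w.V) : w'.red T ∉ cl K (w'.red '' (algebraMap L L' '' s)) := by
  intro hmem
  obtain ⟨p, hp0, hp⟩ := mem_cl'.mp hmem
  let j : w.κ →ₐ[K] w'.κ :=
    { (ψ.comp Polynomial.C : w.κ →+* w'.κ) with
      commutes' := fun c => by
        change ψ (Polynomial.C (algebraMap K w.κ c)) = _
        rw [← PLB_red_algebraMap w c, hC _ (w.hK c), ← IsScalarTower.algebraMap_apply,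
          PLB_red_algebraMap] }
  have hj : ∀ a, j a = ψ (Polynomial.C a) := fun a => rfl
  have hadj : Algebra.adjoin K (w'.red '' (algebraMap L L' '' s)) ≤ j.range := by
    apply Algebra.adjoin_le
    rintro _ ⟨_, ⟨a, ha, rfl⟩, rfl⟩
    exact ⟨w.red a, hC a (hs a ha)⟩
  have h1 : p.map (algebraMap (Algebra.adjoin K (w'.red '' (algebraMap L L' '' s))) w'.κ) ∈
      Polynomial.lifts (j : w.κ →+* w'.κ) := by
    rw [Polynomial.lifts_iff_coeff_lifts]
    intro k
    rw [Polynomial.coeff_map]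
    obtain ⟨b, hb⟩ := hadj (p.coeff k).2
    exact ⟨b, hb⟩
  obtain ⟨q, hq⟩ := h1
  have hq' : q.map (j : w.κ →+* w'.κ) =
      p.map (algebraMap (Algebra.adjoin K (w'.red '' (algebraMap L L' '' s))) w'.κ) := hq
  have hq0 : q ≠ 0 := by
    rintro rfl
    rw [Polynomial.map_zero] at hq'
    exact hp0 ((Polynomial.map_eq_zero_iff Subtype.val_injective).mp hq'.symm)
  have h2 : ψ q = Polynomial.eval₂ (j : w.κ →+* w'.κ) (ψ Polynomial.X) q := by
    have h3 : ψ = Polynomial.eval₂RingHom (j : w.κ →+* w'.κ) (ψ Polynomial.X) := by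
      apply Polynomial.ringHom_ext
      · intro a
        rw [Polynomial.coe_eval₂RingHom, Polynomial.eval₂_C]
        rfl
      · rw [Polynomial.coe_eval₂RingHom, Polynomial.eval₂_X]
    exact congrArg (fun χ : Polynomial w.κ →+* w'.κ => χ q) h3
  have h4 : ψ q = 0 := by
    rw [h2, ← Polynomial.eval_map, hq', hX, Polynomial.eval_map]
    exact hp
  exact hq0 ((injective_iff_map_eq_zero ψ).mp hψ q h4)

theorem st_VGS (hCONJ : ST_CONJ.{u}) (hPL1 : ST_PL1.{u}) (hPL2 : ST_PL2.{u})
    (hPL3 : ST_PL3.{u}) : ST_VGS.{u} := by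
  intro K _ _ n m S L _ _ w σ x hx hv hvr
  let E := FractionRing (Polynomial L)
  let L' := AlgebraicClosure E
  let T : L' := algebraMap E L' (algebraMap (Polynomial L) E Polynomial.X)
  have hT : Transcendental L T := by
    have h1 : Transcendental L (Polynomial.X : Polynomial L) := Polynomial.transcendental_X L
    have h2 : Function.Injective ((algebraMap E L').comp (algebraMap (Polynomial L) E)) :=
      (algebraMap E L').injective.comp (IsFractionRing.injective (Polynomial L) E)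
    let θ : Polynomial L →ₐ[L] L' := (IsScalarTower.toAlgHom L E L').comp
      (IsScalarTower.toAlgHom L (Polynomial L) E)
    have h3 : Transcendental L (θ Polynomial.X) := by
      intro h4
      exact h1 (isAlgebraic_algHom_iff θ h2 |>.mp h4)
    exact h3
  obtain ⟨w', hExt, hTV, ψ, hψ, hX, hC⟩ := VGS_place (K := K) w T hT
  have htr := VGS_trans w w' T ψ hψ hX hC
  have hα : ∀ c, algebraMap L L' (x c) ∈ w'.V := fun c => (hExt _).mpr (hx c)
  let x' : Fin n → L' := fun c => algebraMap L L' (x c)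
  have hx'r : algebraMap L L' '' Set.range x = Set.range x' := by
    rw [← Set.range_comp]
    rfl
  have hVx' : Vtx S.P σ x' := hv.map (IsScalarTower.toAlgHom K L L')
  let s₁ : Set L' := insert T (Set.range x')
  have hs₁ : s₁.Finite := (Set.finite_range x').insert T
  have hs₁V : ∀ a ∈ s₁, a ∈ w'.V := by
    rintro a (rfl | ⟨c, rfl⟩)
    · exact hTV
    · exact hα c
  -- the residue of `x'` is conjugate to the residue of `x`
  have hred : Conj K (w.redv x) (w'.redv x') := by
    let j : w.κ →ₐ[K] w'.κ :=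
      { (ψ.comp Polynomial.C : w.κ →+* w'.κ) with
        commutes' := fun c => by
          change ψ (Polynomial.C (algebraMap K w.κ c)) = _
          rw [← PLB_red_algebraMap w c, hC _ (w.hK c), ← IsScalarTower.algebraMap_apply,
            PLB_red_algebraMap] }
    have h1 := conj_of_algHom j (w.redv x)
    have h2 : (fun i => j (w.redv x i)) = w'.redv x' := by
      funext c
      exact hC (x c) (hx c)
    rw [h2] at h1
    exact h1
  have hVr' : Vtx S.P σ (w'.redv x') := hvr.of_conj hred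
  have hTr : w'.red T ∉ cl K (Set.range (w'.redv x')) := by
    have h1 := htr (Set.range x) (by rintro _ ⟨c, rfl⟩; exact hx c)
    rw [hx'r, ← Set.range_comp] at h1
    exact h1
  have hrs₁ : w'.red '' s₁ = insert (w'.red T) (Set.range (w'.redv x')) := by
    rw [Set.image_insert_eq, ← Set.range_comp]
    rfl
  have hrk1 : rk K (w'.red '' s₁) = m * 1 + 1 := by
    rw [hrs₁, rk_insert_of_notMem (Set.finite_range _) hTr, S.rk_vtx hVr']
  have hrk2 : rk K s₁ ≤ m * 1 + 1 := by
    have h1 := rk_insert_le (K := K) (Set.finite_range x') T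
    rw [S.rk_vtx hVx'] at h1
    exact h1
  have hTriv : w'.Triv (cl K s₁) := hPL1 K L' w' s₁ hs₁ hs₁V (by rw [hrk1]; exact hrk2)
  have hTx : T ∉ cl K (Set.range x') := by
    intro h1
    have h2 : rk K s₁ = rk K (Set.range x') := by
      have h3 := rk_union_of_subset_cl (K := K) (s := Set.range x') (t := {T})
        (by rintro _ rfl; exact h1)
      rw [Set.union_singleton] at h3
      exact h3
    have h4 := (hPL3 K L' w' s₁ hs₁ hs₁V).1
    rw [hrk1, h2, S.rk_vtx hVx'] at h4
    omega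
  obtain ⟨y, hy1, hy2⟩ := st_STEP1 hCONJ K n m S L' σ x' T hVx' hTx
  have hycl : ∀ c, y c ∈ cl K s₁ := by
    intro c
    have h1 := STEP1_mem_cl S hy1 c
    rw [hy2] at h1
    exact h1
  have hxcl : ∀ c, x' c ∈ cl K s₁ := fun c => mem_cl_of_mem (Or.inr ⟨c, rfl⟩)
  obtain ⟨⟨θ, hθ⟩, -⟩ := hPL2 K L' w' s₁ hTriv
  refine ⟨L', inferInstance, inferInstance, inferInstance, w', y, inferInstance, inferInstance,
    hExt, fun c => (hTriv _ (hycl c)).1, hy1, ?_, ?_⟩
  · refine (edge_map_cl (P := S.P) (x := x') (y := y) (x' := w'.redv x') (y' := w'.redv y)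
      θ hxcl hycl ?_ ?_).mp hy1
    · intro c b hb
      rw [hθ b, hb]
      rfl
    · intro c b hb
      rw [hθ b, hb]
      rfl
  · intro s _ hsV
    rw [hy2]
    exact htr s hsV

end Pool.Agent.Helper92.GG
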